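import Mathlib

set_option autoImplicit false

namespace Pool.Agent.Results.MP_f0d684_an.NotReducing

open Polynomial

theorem nonreal (P : Cubic ℝ) (ha : P.a ≠ 0) (hd : P.discr < 0) :
    ∃ z : ℂ, aeval z P.toPoly = 0 ∧ z.im ≠ 0 := by
  by_contra h
  push Not at h
  obtain ⟨x, y, z, h3⟩ := (Cubic.splits_iff_roots_eq_three (φ := algebraMap ℝ ℂ) ha).1
    (IsAlgClosed.splits _)
  have hr : ∀ w : ℂ, w ∈ (Cubic.map (algebraMap ℝ ℂ) P).roots → w = (w.re : ℂ) := by
    intro w hw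
    rw [Cubic.map_roots] at hw
    have := isRoot_of_mem_roots hw
    rw [IsRoot.def, eval_map_algebraMap] at this
    exact Complex.ext (by simp) (by simpa using h w this)
  have e := Cubic.discr_eq_prod_three_roots ha h3
  rw [hr x (by simp [h3]), hr y (by simp [h3]), hr z (by simp [h3])] at e
  have e' : P.discr = (P.a * P.a * (x.re - y.re) * (x.re - z.re) * (y.re - z.re)) ^ 2 := by
    simp only [Complex.coe_algebraMap] at e
    exact_mod_cast e
  have := sq_nonneg (P.a * P.a * (x.re - y.re) * (x.re - z.re) * (y.re - z.re))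
  linarith

theorem third_diff {p : ℝ} (hp : 2 < p) : 0 < (3 : ℝ) ^ p - 3 * 2 ^ p + 3 := by
  obtain ⟨t, rfl⟩ : ∃ t, p = 2 + t := ⟨p - 2, by ring⟩
  have ht : 0 < t := by linarith
  set y : ℝ := 2 ^ (t / 2) with hy
  have hy1 : 1 < y := Real.one_lt_rpow (by norm_num) (by linarith)
  have e2 : (2 : ℝ) ^ t = y ^ 2 := by
    rw [hy, ← Real.rpow_natCast, ← Real.rpow_mul (by norm_num)]
    congr 1; push_cast; ring
  have e3 : y ^ 3 ≤ (3 : ℝ) ^ t := by
    have h1 : y ^ 3 = (8 : ℝ) ^ (t / 2) := by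
      rw [hy, ← Real.rpow_natCast, ← Real.rpow_mul (by norm_num), mul_comm,
        Real.rpow_mul (by norm_num)]
      norm_num
    have h2 : (3 : ℝ) ^ t = (9 : ℝ) ^ (t / 2) := by
      rw [show (9 : ℝ) = 3 ^ (2 : ℝ) by norm_num, ← Real.rpow_mul (by norm_num)]
      congr 1; ring
    rw [h1, h2]
    exact Real.rpow_le_rpow (by norm_num) (by norm_num) (by linarith)
  rw [Real.rpow_add (by norm_num), Real.rpow_add (by norm_num), e2]
  norm_num
  have : 0 < (y - 1) * (3 * y ^ 2 - y - 1) := mul_pos (by linarith) (by nlinarith)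
  nlinarith

theorem key {A B : ℝ} (hA : 0 < A) (hAB : A < B) : ∃ α0 : ℝ, 0 < α0 ∧ ∀ α, 0 < α → α < α0 →
    4 * (1 - Real.exp (-(α * A))) * (1 - Real.exp (-(α * B))) <
      (1 - Real.exp (-(α * A)) * Real.exp (-(α * B))) ^ 2 := by
  have hS : 0 < A + B := by linarith
  have hD : 0 < (B - A) ^ 2 := by have := sub_pos.2 hAB; positivity
  refine ⟨(B - A) ^ 2 / (2 * (A + B) ^ 3), by positivity, fun α h0 h1 => ?_⟩
  rw [lt_div_iff₀ (by positivity)] at h1
  have a1 : 1 - Real.exp (-(α * A)) ≤ α * A := by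
    have := Real.add_one_le_exp (-(α * A)); linarith
  have a2 : 1 - Real.exp (-(α * B)) ≤ α * B := by
    have := Real.add_one_le_exp (-(α * B)); linarith
  have b2 : 0 ≤ 1 - Real.exp (-(α * B)) := by
    have : Real.exp (-(α * B)) ≤ 1 := Real.exp_le_one_iff.2 (by nlinarith)
    linarith
  set s := α * (A + B) with hs
  have hs0 : 0 < s := by positivity
  have hDS : (B - A) ^ 2 ≤ (A + B) ^ 2 := by nlinarith
  have hs1 : s < 1 / 2 := by
    have : s * (2 * (A + B) ^ 2) < (A + B) ^ 2 := by rw [hs]; nlinarith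
    by_contra hc
    push Not at hc
    nlinarith [sq_pos_of_pos hS]
  have c1 : s - s ^ 2 ≤ 1 - Real.exp (-(α * A)) * Real.exp (-(α * B)) := by
    rw [← Real.exp_add, show -(α * A) + -(α * B) = -s by rw [hs]; ring, Real.exp_neg]
    have h2 := Real.add_one_le_exp s
    have h3 : (Real.exp s)⁻¹ ≤ (s + 1)⁻¹ := inv_anti₀ (by linarith) h2
    have h4 : (s + 1)⁻¹ ≤ 1 - s + s ^ 2 := by
      rw [inv_le_iff_one_le_mul₀ (by linarith)]
      nlinarith [pow_pos hs0 3]
    linarith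
  have c2 : (s - s ^ 2) ^ 2 ≤ (1 - Real.exp (-(α * A)) * Real.exp (-(α * B))) ^ 2 :=
    pow_le_pow_left₀ (by nlinarith) c1 2
  have c3 : 4 * (1 - Real.exp (-(α * A))) * (1 - Real.exp (-(α * B))) ≤ 4 * (α * A) * (α * B) :=
    mul_le_mul (by linarith) a2 b2 (by positivity)
  have c4 : 4 * (α * A) * (α * B) < (s - s ^ 2) ^ 2 := by
    have e1 : 4 * (α * A) * (α * B) = s ^ 2 - α ^ 2 * (B - A) ^ 2 := by rw [hs]; ring
    have e2 : 2 * s ^ 3 < α ^ 2 * (B - A) ^ 2 := by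
      have : 2 * s ^ 3 = α ^ 2 * (α * (2 * (A + B) ^ 3)) := by rw [hs]; ring
      rw [this]
      exact mul_lt_mul_of_pos_left h1 (by positivity)
    nlinarith [pow_pos hs0 4]
  linarith

theorem result :
    ∀ p : ℝ, 2 < p → ∃ α0 : ℝ, 0 < α0 ∧ ∀ α : ℝ, 0 < α → α < α0 →
      ¬ ∀ θ : ℝ, 0 < θ → θ < Real.pi / 2 → ∃ γ : ℝ, 0 ≤ γ ∧ γ < θ ∧
        ∀ f g : ℝ[X], f ≠ 0 →
          (∀ k : ℕ, g.coeff k = Real.exp (-α * (k : ℝ) ^ p) * f.coeff k) →
          (∀ z : ℂ, aeval z f = 0 → z = 0 ∨ |z.arg| ≤ θ) →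
          ∀ z : ℂ, aeval z g = 0 → z = 0 ∨ |z.arg| ≤ γ := by
  intro p hp
  have h2 : (4 : ℝ) < 2 ^ p := by
    have := Real.rpow_lt_rpow_of_exponent_lt (by norm_num : (1 : ℝ) < 2) hp
    norm_num at this
    exact this
  obtain ⟨α0, h0, hk⟩ := key (A := 2 ^ p - 2) (B := 3 ^ p - 2 * 2 ^ p + 1) (by linarith)
    (by have := third_diff hp; linarith)
  refine ⟨α0, h0, fun α ha0 ha1 H => ?_⟩
  have hk' := hk α ha0 ha1
  set u := Real.exp (-(α * (2 ^ p - 2))) with hu
  set v := Real.exp (-(α * (3 ^ p - 2 * 2 ^ p + 1))) with hv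
  set r := Real.exp (-α) with hr
  have r0 : 0 < r := Real.exp_pos _
  have u0 : 0 < u := Real.exp_pos _
  have v0 : 0 < v := Real.exp_pos _
  have g2 : Real.exp (-α * 2 ^ p) = u * r ^ 2 := by
    rw [hu, hr, ← Real.exp_nat_mul, ← Real.exp_add]
    congr 1; push_cast; ring
  have g3 : Real.exp (-α * 3 ^ p) = v * u ^ 2 * r ^ 3 := by
    rw [hu, hv, hr, ← Real.exp_nat_mul, ← Real.exp_nat_mul, ← Real.exp_add, ← Real.exp_add]
    congr 1; push_cast; ring
  let P : Cubic ℝ := ⟨v * u ^ 2 * r ^ 3, -3 * (u * r ^ 2), 3 * r, -1⟩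
  let F : Cubic ℝ := ⟨1, -3, 3, -1⟩
  obtain ⟨z, hz, hzi⟩ := nonreal P (by simp only [P]; positivity) (by
    have e : P.discr = 27 * r ^ 6 * u ^ 2 * (4 * (1 - u) * (1 - v) - (1 - u * v) ^ 2) := by
      simp only [P, Cubic.discr]; ring
    rw [e]
    exact mul_neg_of_pos_of_neg (by positivity) (by linarith))
  have harg : 0 < |z.arg| := by
    rw [abs_pos]
    intro h
    exact hzi (Complex.arg_eq_zero_iff.1 h).2
  have hpi := Real.pi_pos
  obtain ⟨γ, -, hγ, hH⟩ := H (min |z.arg| (Real.pi / 4)) (lt_min harg (by positivity))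
    ((min_le_right _ _).trans_lt (by linarith))
  have := hH F.toPoly P.toPoly (Cubic.ne_zero_of_a_ne_zero (by simp [F])) (by
    intro k
    rcases k with _ | _ | _ | _ | k
    · rw [Cubic.coeff_eq_d, Cubic.coeff_eq_d]
      simp [P, F, Real.zero_rpow (show p ≠ 0 by linarith)]
    · rw [zero_add, Cubic.coeff_eq_c, Cubic.coeff_eq_c]
      simp only [P, F, Nat.cast_one, Real.one_rpow, mul_one]
      ring
    · rw [show 0 + 1 + 1 = 2 from rfl, Cubic.coeff_eq_b, Cubic.coeff_eq_b]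
      simp only [P, F, Nat.cast_ofNat, g2]
      ring
    · rw [show 0 + 1 + 1 + 1 = 3 from rfl, Cubic.coeff_eq_a, Cubic.coeff_eq_a]
      simp only [P, F, Nat.cast_ofNat, g3]
      ring
    · rw [Cubic.coeff_eq_zero (by omega), Cubic.coeff_eq_zero (by omega), mul_zero]) (by
    intro w hw
    right
    have h1 : (w - 1) ^ 3 = 0 := by
      simp [F, Cubic.toPoly] at hw
      linear_combination hw
    have h2 : w = 1 := sub_eq_zero.1 (pow_eq_zero_iff (by norm_num) |>.1 h1)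
    rw [h2, Complex.arg_one, abs_zero]
    exact (lt_min harg (by positivity)).le) z hz
  rcases this with h | h
  · exact hzi (by simp [h])
  · have := min_le_left |z.arg| (Real.pi / 4)
    linarith

end Pool.Agent.Results.MP_f0d684_an.NotReducing
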